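import Pool.Agent.helper75.IQ.Spec

/-!
# Row CMP of `Pool.Agent.helper75.IQ.Spec`
-/

set_option autoImplicit false

namespace Pool.Agent.helper75.IQ

open MeasureTheory Set

theorem CMP_k : IntervalIntegrable (fun σ : ℝ => 1 / √(1 - σ)) volume 0 1 := by
  have h1 := (intervalIntegral.intervalIntegrable_rpow' (a := 0) (b := 1) (r := -(1 / 2 : ℝ))
    (by norm_num)).comp_sub_left 1
  rw [sub_zero, sub_self] at h1
  refine h1.symm.congr ?_
  intro σ hσ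
  rw [uIoc_of_le zero_le_one] at hσ
  show (1 - σ) ^ (-(1 / 2 : ℝ)) = 1 / √(1 - σ)
  rw [Real.rpow_neg (by linarith [hσ.2]), Real.sqrt_eq_rpow]
  exact (one_div _).symm

theorem CMP_kc {h : ℝ → ℝ} (hh : ContinuousOn h (Icc 0 1)) :
    IntervalIntegrable (fun σ : ℝ => h σ * (1 / √(1 - σ))) volume 0 1 := by
  refine CMP_k.continuousOn_mul ?_
  rwa [uIcc_of_le zero_le_one]

theorem CMP_cv (f : ℝ → ℝ) (c : ℝ) (hc : c ≠ 0) :
    ∫ w in (0 : ℝ)..c, f w = c * ∫ σ in (0 : ℝ)..1, f (c * σ) := by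
  rw [intervalIntegral.integral_comp_mul_left f hc, mul_zero, mul_one, smul_eq_mul,
    mul_inv_cancel_left₀ hc]

theorem CMP_lam_pos {κ w : ℝ} (h : -4 < κ * w) : 0 < 1 + κ / 4 * w := by
  have : κ / 4 * w = κ * w / 4 := by ring
  linarith

theorem CMP_cont {κ : ℝ} (τ : ℝ) {w : ℝ} (h : -4 < κ * w) : ContinuousAt (GG κ τ) w := by
  have h1 := CMP_lam_pos h
  have h2 : ContinuousAt (fun w : ℝ => 1 + κ / 4 * w) w := by fun_prop
  have h3 : ContinuousAt (fun w : ℝ => (1 + κ / 4 * w)⁻¹ ^ 2) w := (h2.inv₀ h1.ne').pow 2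
  have h4 : ContinuousAt (fun w : ℝ => √(1 + τ ^ 2 * w)) w := by fun_prop
  exact h4.mul h3

theorem CMP_meas (κ τ : ℝ) : Measurable (GG κ τ) := by
  unfold GG lam
  fun_prop

theorem CMP_pos {κ : ℝ} (τ : ℝ) {w : ℝ} (h : -4 < κ * w) (hw : 0 ≤ w) : 0 < GG κ τ w := by
  have h1 := CMP_lam_pos h
  unfold GG lam
  have h2 : 0 < 1 + τ ^ 2 * w := by positivity
  positivity

theorem CMP_mono {κ : ℝ} (τ : ℝ) (hκ : κ ≤ 0) {a b : ℝ} (_ha : 0 ≤ a) (hab : a ≤ b) (h : -4 < κ * b) :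
    GG κ τ a ≤ GG κ τ b := by
  have h1 := CMP_lam_pos h
  have h2 : 1 + κ / 4 * b ≤ 1 + κ / 4 * a := by nlinarith
  have h3 : (1 + κ / 4 * a)⁻¹ ≤ (1 + κ / 4 * b)⁻¹ := inv_anti₀ h1 h2
  have h4 : 0 ≤ (1 + κ / 4 * a)⁻¹ := by
    rw [inv_nonneg]
    linarith
  unfold GG lam
  refine mul_le_mul (Real.sqrt_le_sqrt ?_) (pow_le_pow_left₀ h4 h3 2) (by positivity) (Real.sqrt_nonneg _)
  nlinarith [sq_nonneg τ]

theorem CMP_lt {κ : ℝ} (hκ : κ ≤ 0) {s w : ℝ} (hs : -4 < κ * s) (hw : w ≤ s) : -4 < κ * w := by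
  nlinarith

theorem CMP_gint {κ : ℝ} (τ : ℝ) (hκ : κ ≤ 0) {s a b : ℝ} (hs : -4 < κ * s) (ha : a ≤ s) (hb : b ≤ s) :
    IntervalIntegrable (GG κ τ) volume a b := by
  apply ContinuousOn.intervalIntegrable
  intro w hw
  have h1 : w ≤ s := by
    have := hw.2
    exact this.trans (max_le ha hb)
  exact (CMP_cont τ (CMP_lt hκ hs h1)).continuousWithinAt

/-- the primitive of `GG` -/
noncomputable def CMP_P (κ τ w : ℝ) : ℝ := ∫ v in (0 : ℝ)..w, GG κ τ v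

theorem CMP_P_deriv {κ : ℝ} (τ : ℝ) (hκ : κ ≤ 0) {w : ℝ} (hw : 0 ≤ w) (h : -4 < κ * w) :
    HasDerivAt (CMP_P κ τ) (GG κ τ w) w :=
  intervalIntegral.integral_hasDerivAt_right (CMP_gint τ hκ h hw le_rfl)
    ((CMP_meas κ τ).stronglyMeasurable.stronglyMeasurableAtFilter) (CMP_cont τ h)

theorem CMP_convex {κ : ℝ} (τ : ℝ) (hκ : κ ≤ 0) {a b : ℝ} (ha : 0 ≤ a) (hb : 0 ≤ b)
    (h1 : -4 < κ * a) (h2 : -4 < κ * b) :
    CMP_P κ τ a + GG κ τ a * (b - a) ≤ CMP_P κ τ b := by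
  unfold CMP_P
  rcases le_total a b with hab | hab
  · have i1 := CMP_gint τ hκ h2 hb hab
    have i2 := CMP_gint τ hκ h2 hab (le_refl b)
    have h3 := intervalIntegral.integral_add_adjacent_intervals i1 i2
    have h4 : ∫ v in a..b, GG κ τ a ≤ ∫ v in a..b, GG κ τ v := by
      refine intervalIntegral.integral_mono_on hab intervalIntegrable_const i2 fun v hv => ?_
      exact CMP_mono τ hκ ha hv.1 (CMP_lt hκ h2 hv.2)
    rw [intervalIntegral.integral_const, smul_eq_mul] at h4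
    rw [← h3]
    linarith
  · have i1 := CMP_gint τ hκ h1 ha hab
    have i2 := CMP_gint τ hκ h1 hab (le_refl a)
    have h3 := intervalIntegral.integral_add_adjacent_intervals i1 i2
    have h4 : ∫ v in b..a, GG κ τ v ≤ ∫ v in b..a, GG κ τ a := by
      refine intervalIntegral.integral_mono_on hab i2 intervalIntegrable_const fun v hv => ?_
      exact CMP_mono τ hκ (hb.trans hv.1) hv.2 h1
    rw [intervalIntegral.integral_const, smul_eq_mul] at h4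
    rw [← h3]
    linarith

section
variable {κ : ℝ} (τ : ℝ) (hκ : κ ≤ 0) {s : ℝ} (hs0 : 0 < s) (hs : -4 < κ * s)
include hκ hs0 hs

theorem CMP_dom {σ : ℝ} (hσ : σ ∈ Icc (0 : ℝ) 1) : 0 ≤ s * σ ∧ -4 < κ * (s * σ) := by
  refine ⟨mul_nonneg hs0.le hσ.1, CMP_lt hκ hs ?_⟩
  nlinarith [hσ.2]

theorem CMP_Gc : ContinuousOn (fun σ : ℝ => GG κ τ (s * σ)) (Icc 0 1) := by
  intro σ hσ
  have h1 := CMP_dom hκ hs0 hs hσ
  have h2 : ContinuousAt (fun σ : ℝ => GG κ τ (s * σ)) σ := by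
    have h3 : ContinuousAt (fun σ : ℝ => s * σ) σ := by fun_prop
    exact ContinuousAt.comp (g := GG κ τ) (CMP_cont τ h1.2) h3
  exact h2.continuousWithinAt

theorem CMP_Pd {σ : ℝ} (hσ : σ ∈ Icc (0 : ℝ) 1) :
    HasDerivAt (fun σ : ℝ => CMP_P κ τ (s * σ)) (s * GG κ τ (s * σ)) σ := by
  have h1 := CMP_dom hκ hs0 hs hσ
  have h2 := CMP_P_deriv τ hκ h1.1 h1.2
  have h3 : HasDerivAt (fun σ : ℝ => s * σ) s σ := by
    simpa using (hasDerivAt_id σ).const_mul s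
  have h4 := h2.comp σ h3
  rw [mul_comm] at h4
  exact h4

theorem CMP_Pc : ContinuousOn (fun σ : ℝ => CMP_P κ τ (s * σ)) (Icc 0 1) :=
  fun _ hσ => (CMP_Pd τ hκ hs0 hs hσ).continuousAt.continuousWithinAt

theorem CMP_parts : s * ∫ σ in (0 : ℝ)..1, √(1 - σ) * GG κ τ (s * σ) =
    1 / 2 * ∫ σ in (0 : ℝ)..1, CMP_P κ τ (s * σ) * (1 / √(1 - σ)) := by
  have hu : ContinuousOn (fun σ : ℝ => √(1 - σ)) (uIcc 0 1) := by fun_prop
  have hv : ContinuousOn (fun σ : ℝ => CMP_P κ τ (s * σ)) (uIcc 0 1) := by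
    rw [uIcc_of_le zero_le_one]
    exact CMP_Pc τ hκ hs0 hs
  have h1 := intervalIntegral.integral_mul_deriv_eq_deriv_mul_of_hasDerivAt
    (u := fun σ : ℝ => √(1 - σ)) (u' := fun σ : ℝ => -(1 / 2) * (1 / √(1 - σ)))
    (v := fun σ : ℝ => CMP_P κ τ (s * σ)) (v' := fun σ : ℝ => s * GG κ τ (s * σ))
    (a := 0) (b := 1) hu hv ?_ ?_ ?_ ?_
  · have h2 : CMP_P κ τ (s * 0) = 0 := by
      rw [mul_zero]
      exact intervalIntegral.integral_same
    rw [sub_self, Real.sqrt_zero, zero_mul, h2, mul_zero, sub_zero, zero_sub] at h1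
    rw [← intervalIntegral.integral_const_mul, ← intervalIntegral.integral_const_mul]
    rw [← intervalIntegral.integral_neg] at h1
    have h3 : (fun σ : ℝ => s * (√(1 - σ) * GG κ τ (s * σ))) =
        fun σ : ℝ => √(1 - σ) * (s * GG κ τ (s * σ)) := by
      funext σ
      ring
    rw [h3, h1]
    refine intervalIntegral.integral_congr fun σ _ => ?_
    ring
  · intro σ hσ
    rw [min_eq_left zero_le_one, max_eq_right zero_le_one] at hσ
    have h4 : (1 : ℝ) - σ ≠ 0 := by linarith [hσ.2]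
    have h5 := ((hasDerivAt_id σ).const_sub 1).sqrt h4
    have h6 : (-(1 / 2) * (1 / √(1 - σ)) : ℝ) = -1 / (2 * √(1 - id σ)) := by
      rw [id]
      field_simp
    rw [h6]
    exact h5
  · intro σ hσ
    rw [min_eq_left zero_le_one, max_eq_right zero_le_one] at hσ
    exact CMP_Pd τ hκ hs0 hs ⟨hσ.1.le, hσ.2.le⟩
  · exact CMP_k.const_mul _
  · apply ContinuousOn.intervalIntegrable
    rw [uIcc_of_le zero_le_one]
    exact (CMP_Gc τ hκ hs0 hs).const_mul s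

end

theorem CMP_key {κ : ℝ} (τ : ℝ) (hκ : κ ≤ 0) {s t : ℝ} (hs0 : 0 < s) (hs : -4 < κ * s) (ht0 : 0 < t)
    (ht : -4 < κ * t) :
    t * (∫ σ in (0 : ℝ)..1, √(1 - σ) * GG κ τ (t * σ)) +
      (s - t) / 2 * ∫ σ in (0 : ℝ)..1, (σ * GG κ τ (t * σ)) * (1 / √(1 - σ)) ≤
    s * ∫ σ in (0 : ℝ)..1, √(1 - σ) * GG κ τ (s * σ) := by
  rw [CMP_parts τ hκ hs0 hs, CMP_parts τ hκ ht0 ht]
  have i1 := CMP_kc (CMP_Pc τ hκ hs0 hs)
  have i2 := CMP_kc (CMP_Pc τ hκ ht0 ht)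
  have i3 : IntervalIntegrable (fun σ : ℝ => (σ * GG κ τ (t * σ)) * (1 / √(1 - σ))) volume 0 1 :=
    CMP_kc (h := fun σ : ℝ => σ * GG κ τ (t * σ)) (continuousOn_id.mul (CMP_Gc τ hκ ht0 ht))
  have h1 : (∫ σ in (0 : ℝ)..1, (CMP_P κ τ (t * σ) * (1 / √(1 - σ)) +
      (s - t) * ((σ * GG κ τ (t * σ)) * (1 / √(1 - σ))))) ≤
      ∫ σ in (0 : ℝ)..1, CMP_P κ τ (s * σ) * (1 / √(1 - σ)) := by
    refine intervalIntegral.integral_mono_on zero_le_one (i2.add (i3.const_mul _)) i1 fun σ hσ => ?_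
    have d1 := CMP_dom hκ hs0 hs hσ
    have d2 := CMP_dom hκ ht0 ht hσ
    have h2 := CMP_convex τ hκ d2.1 d1.1 d2.2 d1.2
    have h3 : (0 : ℝ) ≤ 1 / √(1 - σ) := by positivity
    have h4 := mul_le_mul_of_nonneg_right h2 h3
    refine le_trans (le_of_eq ?_) h4
    ring
  rw [intervalIntegral.integral_add i2 (i3.const_mul _), intervalIntegral.integral_const_mul] at h1
  linarith

theorem CMP : CMP_stmt := by
  intro κ τ r R hκ hr hr4 hR hR4
  have hr2 : 0 < r ^ 2 := by positivity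
  have hR2 : 0 < R ^ 2 := by positivity
  set A : ℝ := ∫ σ in (0 : ℝ)..1, (σ * GG κ τ (R ^ 2 * σ)) * (1 / √(1 - σ)) with hA
  set B : ℝ := ∫ σ in (0 : ℝ)..1, √(1 - σ) * GG κ τ (R ^ 2 * σ) with hB
  have hVV : VV κ τ R = Real.pi * R ^ 3 * A := by
    unfold VV
    rw [CMP_cv _ _ hR2.ne', hA]
    have h1 : ∀ σ : ℝ, R ^ 2 * σ * GG κ τ (R ^ 2 * σ) / √(1 - R ^ 2 * σ / R ^ 2) =
        R ^ 2 * ((σ * GG κ τ (R ^ 2 * σ)) * (1 / √(1 - σ))) := by
      intro σ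
      rw [mul_div_cancel_left₀ σ hR2.ne']
      ring
    simp only [h1]
    rw [intervalIntegral.integral_const_mul]
    field_simp
  have hFF : ∀ ρ : ℝ, 0 < ρ → FF κ τ ρ =
      2 * Real.pi * (ρ ^ 2 * ∫ σ in (0 : ℝ)..1, √(1 - σ) * GG κ τ (ρ ^ 2 * σ)) := by
    intro ρ hρ
    have hρ2 : 0 < ρ ^ 2 := by positivity
    unfold FF
    rw [CMP_cv _ _ hρ2.ne']
    have h1 : ∀ σ : ℝ, √(1 - ρ ^ 2 * σ / ρ ^ 2) * GG κ τ (ρ ^ 2 * σ) = √(1 - σ) * GG κ τ (ρ ^ 2 * σ) := by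
      intro σ
      rw [mul_div_cancel_left₀ σ hρ2.ne']
    simp only [h1]
  have iA : IntervalIntegrable (fun σ : ℝ => (σ * GG κ τ (R ^ 2 * σ)) * (1 / √(1 - σ))) volume 0 1 :=
    CMP_kc (h := fun σ : ℝ => σ * GG κ τ (R ^ 2 * σ)) (continuousOn_id.mul (CMP_Gc τ hκ hR2 hR4))
  have iB : IntervalIntegrable (fun σ : ℝ => √(1 - σ) * GG κ τ (R ^ 2 * σ)) volume 0 1 := by
    apply ContinuousOn.intervalIntegrable
    rw [uIcc_of_le zero_le_one]
    refine ContinuousOn.mul ?_ (CMP_Gc τ hκ hR2 hR4)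
    fun_prop
  have hPP : PP κ τ R = 2 * Real.pi * (R ^ 2 * (A + B)) := by
    unfold PP
    rw [CMP_cv _ _ hR2.ne', hA, hB, ← intervalIntegral.integral_add iA iB]
    congr 2
    refine intervalIntegral.integral_congr fun σ hσ => ?_
    rw [uIcc_of_le zero_le_one] at hσ
    show GG κ τ (R ^ 2 * σ) / √(1 - R ^ 2 * σ / R ^ 2) =
      (σ * GG κ τ (R ^ 2 * σ)) * (1 / √(1 - σ)) + √(1 - σ) * GG κ τ (R ^ 2 * σ)
    rw [mul_div_cancel_left₀ σ hR2.ne']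
    rcases eq_or_lt_of_le hσ.2 with h1 | h1
    · rw [h1]
      simp
    · have h2 : 0 < √(1 - σ) := Real.sqrt_pos.2 (by linarith)
      have h3 : √(1 - σ) * √(1 - σ) = 1 - σ := Real.mul_self_sqrt (by linarith)
      have h5 : 1 / √(1 - σ) = σ * (1 / √(1 - σ)) + √(1 - σ) := by
        rw [eq_comm, ← sub_eq_zero]
        field_simp
        nlinarith
      calc GG κ τ (R ^ 2 * σ) / √(1 - σ) = GG κ τ (R ^ 2 * σ) * (1 / √(1 - σ)) := by ring
        _ = GG κ τ (R ^ 2 * σ) * (σ * (1 / √(1 - σ)) + √(1 - σ)) := by rw [← h5]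
        _ = _ := by ring
  have hApos : 0 < A := by
    refine intervalIntegral.intervalIntegral_pos_of_pos_on iA ?_ zero_lt_one
    intro σ hσ
    have d := CMP_dom hκ hR2 hR4 ⟨hσ.1.le, hσ.2.le⟩
    have h1 := CMP_pos τ d.2 d.1
    have h2 : 0 < √(1 - σ) := Real.sqrt_pos.2 (by linarith [hσ.2])
    have h3 := hσ.1
    positivity
  have hBnn : 0 ≤ B := by
    refine intervalIntegral.integral_nonneg zero_le_one fun σ hσ => ?_
    have d := CMP_dom hκ hR2 hR4 hσ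
    have h1 := CMP_pos τ d.2 d.1
    positivity
  have hπ := Real.pi_pos
  have hVpos : 0 < VV κ τ R := by
    rw [hVV]
    positivity
  have hkey := CMP_key τ hκ hr2 hr4 hR2 hR4
  rw [← hA, ← hB] at hkey
  have hmain : PP κ τ R + VV κ τ R * ((r - R) ^ 2 * (r + 2 * R) / (r * R ^ 3)) ≤
      2 / r * VV κ τ R + FF κ τ r := by
    have h1 : 2 * Real.pi * (R ^ 2 * B + (r ^ 2 - R ^ 2) / 2 * A) ≤ FF κ τ r := by
      rw [hFF r hr]
      exact mul_le_mul_of_nonneg_left hkey (by positivity)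
    rw [hPP]
    rw [hVV]
    have h2 : 2 * Real.pi * (R ^ 2 * (A + B)) +
        Real.pi * R ^ 3 * A * ((r - R) ^ 2 * (r + 2 * R) / (r * R ^ 3)) =
        2 / r * (Real.pi * R ^ 3 * A) + 2 * Real.pi * (R ^ 2 * B + (r ^ 2 - R ^ 2) / 2 * A) := by
      field_simp
      ring
    rw [h2]
    linarith
  refine ⟨?_, hVpos, ?_, ?_, ?_⟩
  · rw [hVV, hFF R hR, hPP, ← hB]
    field_simp
  · rw [hFF R hR, ← hB]
    positivity
  · refine le_trans ?_ hmain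
    have : 0 ≤ VV κ τ R * ((r - R) ^ 2 * (r + 2 * R) / (r * R ^ 3)) := by positivity
    linarith
  · intro hne
    refine lt_of_lt_of_le ?_ hmain
    have h1 : 0 < (r - R) ^ 2 := by
      have : r - R ≠ 0 := sub_ne_zero.2 hne
      positivity
    have : 0 < VV κ τ R * ((r - R) ^ 2 * (r + 2 * R) / (r * R ^ 3)) := by positivity
    linarith

end Pool.Agent.helper75.IQ
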